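import Mathlib
import Pool.Agent.H536.OC.U5b
import Pool.Agent.H536.OC.SFloor

/-!
# `⌊(n - p) / m⌋` a `P₃` and `⌊(n - p) / m⌋ ^ 2 - 2` almost prime, for all admissible pairs with `m ≤ n ^ δ`

There are `δ > 0` and `R` such that for all large `n`, ALL `m ≤ n ^ δ` (no exceptional moduli; Siegel zeros are allowed):
if the pair `(m, n)` is admissible in the sense of the problem then there are at least `n ^ 0.97` primes `p < n` for which
`q = ⌊(n - p) / m⌋ > 1` has at most three prime factors, all of them larger than `n ^ 0.11`, and `q ^ 2 - 2` has at most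
`R` prime factors. More precisely there are so many such primes in every residue class `d` modulo `m`, `(d, m) = 1`, for
which, if `m` is odd, `⌊(n - d) / m⌋ + d` is even (without this parity condition `q` or `p` is even).
-/

namespace Pool.Agent.Results.MP_4011c3_nt.AlmostPrimeFloors

/-- the admissible pairs of the problem -/
def Admissible (m n : ℕ) : Prop :=
  1 ≤ m ∧ 2 * m + 1 < n ∧ ((m = 1 ∧ Even n) ∨ (m = 3 ∧ n % 6 ≠ 1) ∨ m = 2 ∨ 4 ≤ m)

/-- `q > 1` is a product of at most three primes larger than `n ^ 0.11` and `q ^ 2 - 2` is one of at most `R` primes -/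
def Good (R n q : ℕ) : Prop :=
  1 < q ∧ ArithmeticFunction.cardFactors q ≤ 3 ∧ (∀ l : ℕ, l.Prime → l ∣ q → (n : ℝ) ^ (11 / 100 : ℝ) < l) ∧
    ArithmeticFunction.cardFactors (q ^ 2 - 2) ≤ R

theorem result : ∃ (δ : ℝ) (R X0 : ℕ), 0 < δ ∧ ∀ n m : ℕ, X0 ≤ n → (m : ℝ) ≤ (n : ℝ) ^ δ →
    (Admissible m n → ∃ S : Finset ℕ, (n : ℝ) ^ (97 / 100 : ℝ) ≤ S.card ∧
      ∀ p ∈ S, p.Prime ∧ p < n ∧ Good R n ((n - p) / m)) ∧
    (∀ d : ℕ, 1 ≤ d → d ≤ m → d.Coprime m → (Odd m → Even ((n - d) / m + d)) →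
      ∃ S : Finset ℕ, (n : ℝ) ^ (97 / 100 : ℝ) ≤ S.card ∧
      ∀ p ∈ S, p.Prime ∧ p < n ∧ p ≡ d [MOD m] ∧ Good R n ((n - p) / m)) := by
  obtain ⟨δ, R, X0, hδ, h⟩ := Pool.Agent.H536.OC.floorA Pool.Agent.H536.OC.SPall
  refine ⟨δ, R, X0, hδ, fun n m hn hm => ⟨?_, ?_⟩⟩
  · rintro ⟨h1, h2, h3⟩
    obtain ⟨d, hd1, hd2, hd3, hd4⟩ := Pool.Agent.H536.OC.floorB n m h1 h2 (by
      intro h
      rcases h3 with h3 | h3 | h3 | h3
      · exact h3.2
      · omega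
      · omega
      · omega) (by
      intro h
      rcases h3 with h3 | h3 | h3 | h3
      · omega
      · exact h3.2
      · omega
      · omega)
    obtain ⟨S, hS, hS2⟩ := h n m d hn hm hd1 hd2 hd3 hd4
    refine ⟨S, hS, fun p hp => ?_⟩
    obtain ⟨g1, g2, g3, g4, g5, g6, g7⟩ := hS2 p hp
    exact ⟨g1, g2, g4, g5, g6, g7⟩
  · intro d hd1 hd2 hd3 hd4
    obtain ⟨S, hS, hS2⟩ := h n m d hn hm hd1 hd2 hd3 hd4
    refine ⟨S, hS, fun p hp => ?_⟩
    obtain ⟨g1, g2, g3, g4, g5, g6, g7⟩ := hS2 p hp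
    exact ⟨g1, g2, g3, g4, g5, g6, g7⟩

end Pool.Agent.Results.MP_4011c3_nt.AlmostPrimeFloors
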