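import Pool.Agent.H559.IX.Main
import Pool.Agent.H559.IX.Nth
import Pool.Agent.H559.FL.Sym
import Pool.Agent.H559.FL.Hyp
import Pool.Agent.H559.FL.Q1
import Pool.Agent.H559.FL.Rr
import Pool.Agent.H559.FL.Fin

set_option autoImplicit false

/-!
# The first floor conjecture in the random sieve model

For every prime `q` a residue class `a q` modulo `q` is drawn uniformly and independently. The random primes are the
integers `v ≥ 3` which are, for all primes `q ≤ z v`, not in the class `0` modulo `q` if `q ≤ (log v) ^ c`, and not in the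
class `a q` modulo `q` if `q > (log v) ^ c`. This is the model of Banks, Ford and Tao (*Large prime gaps and
probabilistic models*) in which the small primes sieve out the class `0` as they do for the true primes. The sieving
limit `z` is any nondecreasing function for which `∏_{q ≤ z v} (1 - 1 / q)` is asymptotic to `1 / log v`; the choice `zBFT`
of Banks, Ford and Tao is one of them. The exponent `c` is any number larger than `1`. `r m` is the `m`-th random prime.

The theorem: there is a constant `C` such that almost surely, for all large `n` and all `m ≤ log log n` (in particular for every fixed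
`m`) such that the pair `(m, n)` is admissible there is a random prime `p < n` such that `q = ⌊(n - p) / m⌋` is a random prime, at
most `(log n) ^ C`, and `r q - q + 1` is a random prime.
-/

open MeasureTheory ProbabilityTheory Filter Topology

namespace Pool.Agent.Results.MP_4011c3_nt.FloorsInRandomSieve

/-- `V m = ∏ (1 - 1 / q)` over the primes `q ≤ m` -/
noncomputable def V (m : ℕ) : ℝ := ∏ q ∈ (Finset.range (m + 1)).filter Nat.Prime, (1 - 1 / (q : ℝ))

/-- the classes `a q` are independent, and `a q` is uniform on `0, …, q - 1` for every prime `q` -/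
structure Model {Ω : Type} [MeasurableSpace Ω] (P : Measure Ω) (a : ℕ → Ω → ℕ) : Prop where
  measurable : ∀ q, Measurable (a q)
  independent : iIndepFun a P
  uniform : ∀ q, q.Prime → ∀ r < q, P.real {ω | a q ω = r} = 1 / q

/-- the sieving limit of Banks, Ford and Tao: the largest `m` with `∏_{q ≤ m} (1 - 1 / q)⁻¹ ≤ log n` -/
noncomputable def zBFT (n : ℕ) : ℕ := sSup {m : ℕ | (V m)⁻¹ ≤ Real.log n}

/-- the admissible sieving limits: the density of the random primes near `v` is asymptotic to `1 / log v` -/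
def Limit (z : ℕ → ℕ) : Prop := Monotone z ∧ Tendsto (fun v => V (z v) * Real.log v) atTop (𝓝 1)

open Classical in
/-- the set of the random primes of a sample -/
def R {Ω : Type} (z : ℕ → ℕ) (c : ℝ) (a : ℕ → Ω → ℕ) (ω : Ω) : Set ℕ :=
  {v | 3 ≤ v ∧ ∀ q ≤ z v, q.Prime → v % q ≠ if (q : ℝ) ≤ Real.log v ^ c then 0 else a q ω}

/-- the `m`-th element of `A` in increasing order, `m ≥ 1` -/
noncomputable def nthEl (A : Set ℕ) (m : ℕ) : ℕ := Nat.nth (fun u => u ∈ A) (m - 1)

/-- the admissible pairs of the problem -/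
def Admissible (m n : ℕ) : Prop :=
  1 ≤ m ∧ 2 * m + 1 < n ∧ ((m = 1 ∧ Even n) ∨ (m = 3 ∧ n % 6 ≠ 1) ∨ m = 2 ∨ 4 ≤ m)

theorem result :
    (∃ (Ω : Type) (_ : MeasurableSpace Ω) (P : Measure Ω) (a : ℕ → Ω → ℕ), Model P a) ∧ Limit zBFT ∧
    ∀ c : ℝ, 1 < c → ∃ C : ℕ, ∀ z : ℕ → ℕ, Limit z →
      ∀ (Ω : Type) [MeasurableSpace Ω] (P : Measure Ω) (a : ℕ → Ω → ℕ), Model P a →
        ∀ᵐ ω ∂P, ∀ᶠ n : ℕ in atTop, ∀ m : ℕ, Admissible m n → (m : ℝ) ≤ Real.log (Real.log n) →
          ∃ p ∈ R z c a ω, p < n ∧ ∃ q ∈ R z c a ω, q = (n - p) / m ∧ (q : ℝ) ≤ Real.log n ^ C ∧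
            q ≤ nthEl (R z c a ω) q ∧ nthEl (R z c a ω) q - q + 1 ∈ R z c a ω := by
  classical
  refine ⟨?_, ⟨Pool.Agent.T2H32.BF.z0_mono, Pool.Agent.T2H32.BF.z0_lim⟩, ?_⟩
  · obtain ⟨Ω, i, P, a, h⟩ := Pool.Agent.T2H32.BF.exists_model
    exact ⟨Ω, i, P, a, h.measurable, h.independent, h.uniform⟩
  · intro c hc
    obtain ⟨C, hC⟩ := Pool.Agent.H559.FL.fin
      (Pool.Agent.H559.FL.t_q1 Pool.Agent.H559.IX.master Pool.Agent.H559.IX.t_sys Pool.Agent.H559.IX.elem
        Pool.Agent.H559.FL.t_sym Pool.Agent.H559.FL.t_hyp) Pool.Agent.H559.FL.t_sym Pool.Agent.H559.FL.t_rr c hc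
    refine ⟨C, fun z hz Ω _ P a hmod => ?_⟩
    have h : Pool.Agent.T2H32.BF.Model P a := ⟨hmod.measurable, hmod.independent, hmod.uniform⟩
    filter_upwards [hC z hz Ω P a h] with ω hω
    have e : Pool.Agent.H559.IX.R0 z c (fun q => a q ω) = R z c a ω := rfl
    have h0 : 0 ∉ R z c a ω := Pool.Agent.H559.IX.zero_notMem z c (fun q => a q ω)
    rw [e] at hω
    unfold Pool.Agent.H559.FL.Q12 at hω
    filter_upwards [hω] with n hn m hm hml
    obtain ⟨g1, _⟩ := hn m hm hml
    obtain ⟨p, hp, hpn, b1, b2, v, b3, b4, b5, b6⟩ := g1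
    obtain ⟨_, e2⟩ := Pool.Agent.H559.IX.nth_cn _ h0 v _ b3 b4
    have e3 : nthEl (R z c a ω) ((n - p) / m) = v := e2
    refine ⟨p, hp, hpn, (n - p) / m, b1, rfl, b2, ?_, ?_⟩
    · rw [e3]
      exact b5
    · rw [e3]
      have e4 : v - (n - p) / m + 1 = v + 1 - (n - p) / m := by omega
      rw [e4]
      exact b6

end Pool.Agent.Results.MP_4011c3_nt.FloorsInRandomSieve
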