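import Mathlib
import Pool.Agent.H528.ApL

set_option autoImplicit false

/-!
# The parity law for the floors `⌊(n - p) / m⌋` in arbitrary companion sets, and for prime quotients

(A) Let `V` be ANY set of integers, e.g. the primes `q` for which `p_q - q + 1`, or `q² - 2`, is prime (it may depend on
`m`). For almost all `n` in `(N, 2 N]` (all but `N ^ δ`, `δ < 1`) and ALL `m ≤ N ^ η` at once: the integers
`x = n - a`, `1 ≤ a ≤ N`, with `⌊(n - x) / m⌋` in `V` that are products of exactly `r` primes are distributed, for every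
`r`, as the number `π` of the primes among them dictates: as many as expected times `π / E` if `r` is odd and times
`2 - π / E` if `r` is even, where `E` is the sieve expectation of `π`.

(B) For almost all `n` in `(N, 2 N]`, simultaneously for ALL moduli `2 ≤ m ≤ (log N) ^ B` prime to `n` with `m n` even,
the same law holds for the quotients `q = (n - p) / m`, `p ≤ N` prime, `p ≡ n (mod m)`, where now `π` is the number of
the representations `n = p + m q` (`p, q` prime) and `E` its conjectured value. Applied to `n - j`, `0 ≤ j < m`, this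
describes the numbers `⌊(n - p) / m⌋` for all primes `p ≤ N`; `m = 2` is Lemoine's problem.

The weight of a product of `r` distinct primes `p₁, …, p_r ≥ N ^ ξ` is the sum of
`∏ (log p_i / log N) ^ (k_i + 1)` over the orderings of the `p_i`.
-/

namespace Pool.Agent.Results.MP_4011c3_nt.ParityLawForFloors

open Finset Filter
open Pool.Agent.H387R2.Uni

/-- the sum of `a(p₁) ^ (k₁ + 1) ⋯ a(p_r) ^ (k_r + 1)` over the orderings `p₁, …, p_r` of the set `P` (and `0` if the
number of the elements of `P` is not the length `r` of the list `k₁, …, k_r`) -/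
noncomputable def moment (a : ℕ → ℝ) : List ℕ → Finset ℕ → ℝ
  | [], P => if P = ∅ then 1 else 0
  | k :: l, P => ∑ p ∈ P, a p ^ (k + 1) * moment a l (P.erase p)

open Classical in
/-- the weight of `m`: `0` unless `m` is the product of `r` distinct primes, all at least `N ^ ξ` (`r` is the length of
the list `l = k₁, …, k_r`), and else the sum of the `∏ (log p_i / log N) ^ (k_i + 1)` over the orderings of them -/
noncomputable def weight (N : ℕ) (ξ : ℝ) (l : List ℕ) (m : ℕ) : ℝ :=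
  if Squarefree m ∧ ∀ q : ℕ, q.Prime → q ∣ m → (N : ℝ) ^ ξ ≤ q then
    moment (fun p => Real.log p / Real.log N) l m.primeFactors else 0

/-- the constant `k₁! ⋯ k_r! / (r - 1 + k₁ + ⋯ + k_r)!`: the integers `m ≤ N` have total weight about this constant times
`N / log N` -/
noncomputable def coeff (l : List ℕ) : ℝ := ((l.map Nat.factorial).prod : ℝ) / ((l.length - 1 + l.sum).factorial : ℝ)

open Classical in
/-- the integers `1 ≤ a ≤ N` with `⌊a / m⌋` in `V`; with `a = n - p` these are the `p = n - a` with `⌊(n - p) / m⌋` in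
`V` -/
noncomputable def floorSet (N m : ℕ) (V : Set ℕ) : Finset ℕ := (Icc 1 N).filter (fun a => a / m ∈ V)

/-- the total weight of the integers `n - a` with `a ≤ N` and `⌊a / m⌋` in `V` -/
noncomputable def floorMass (N : ℕ) (ξ : ℝ) (l : List ℕ) (m : ℕ) (V : Set ℕ) (n : ℕ) : ℝ :=
  ∑ a ∈ floorSet N m V, weight N ξ l (n - a)

/-- the number of the primes `p = n - a` with `a ≤ N` and `⌊a / m⌋ = ⌊(n - p) / m⌋` in `V` -/
noncomputable def floorPrimes (N m : ℕ) (V : Set ℕ) (n : ℕ) : ℝ :=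
  (((floorSet N m V).filter (fun a => (n - a).Prime)).card : ℝ)

/-- `∏_{p ≤ y} (1 - 1 / p)` -/
noncomputable def eulerProd (y : ℕ) : ℝ := ∏ p ∈ (Icc 1 y).filter Nat.Prime, (1 - 1 / (p : ℝ))

open Classical in
/-- the sieve expectation of the number of these primes: the number of the `n - a`, `a ≤ N`, `⌊a / m⌋` in `V`, without a
prime factor `≤ y = exp (κ log N / log log N)`, divided by `log N ∏_{p ≤ y} (1 - 1 / p)` -/
noncomputable def floorExpected (κ : ℝ) (N m : ℕ) (V : Set ℕ) (n : ℕ) : ℝ :=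
  (((floorSet N m V).filter (fun a => ∀ q : ℕ, q.Prime →
      q ≤ ⌊Real.exp (κ * Real.log N / Real.log (Real.log N))⌋₊ → ¬ q ∣ n - a)).card : ℝ) /
    (Real.log N * eulerProd ⌊Real.exp (κ * Real.log N / Real.log (Real.log N))⌋₊)

/-- the primes `p ≤ N` with `p ≡ n (mod m)` -/
def primesAP (N m n : ℕ) : Finset ℕ := (Icc 1 N).filter (fun p => p.Prime ∧ p ≡ n [MOD m])

/-- the total weight of the quotients `(n - p) / m`, `p ≤ N` prime, `p ≡ n (mod m)` -/
noncomputable def mass (N : ℕ) (ξ : ℝ) (l : List ℕ) (m n : ℕ) : ℝ := ∑ p ∈ primesAP N m n, weight N ξ l ((n - p) / m)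

/-- the number of the primes `p ≤ N` with `p ≡ n (mod m)` and `(n - p) / m` prime: the representations `n = p + m q` -/
noncomputable def pairs (N m n : ℕ) : ℝ := (((primesAP N m n).filter (fun p => ((n - p) / m).Prime)).card : ℝ)

/-- the conjectured number of these primes -/
noncomputable def expectedPairs (N m n : ℕ) : ℝ := CT {0, m * n} * (N / m / Real.log N ^ 2)

open Pool.Agent.Y822 Pool.Agent.Y822.Par3
open Pool.Agent.H373R2.T7 (Vz)
open Pool.Agent.H528.UG (wM lg pif law2)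
open Pool.Agent.H528.Mn (ac nn)

lemma ro_iff' {ξ : ℝ} {N m : ℕ} (hN : 1 ≤ N) :
    (∀ q : ℕ, q.Prime → q ∣ m → (N : ℝ) ^ ξ ≤ q) ↔ Ro (zN ξ N) m := by
  constructor
  · intro h1 q hq hqz hqd
    have h3 := zN_lt' (ε₁ := ξ) hN (h1 q hq hqd)
    omega
  · intro h1 q hq hqd
    by_contra h2
    push Not at h2
    exact h1 q hq (le_zN h2) hqd

lemma moment_eq (a : ℕ → ℝ) (l : List ℕ) : ∀ P, moment a l P = Pool.Agent.H528.Mo.M a l P := by
  induction l with
  | nil =>
    intro P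
    unfold moment Pool.Agent.H528.Mo.M
    rfl
  | cons k l ih =>
    intro P
    unfold moment Pool.Agent.H528.Mo.M
    exact sum_congr rfl fun p _ => by rw [ih]

lemma moment_nonneg {a : ℕ → ℝ} (ha : ∀ p, 0 ≤ a p) (l : List ℕ) (P : Finset ℕ) : 0 ≤ moment a l P := by
  rw [moment_eq]
  exact Pool.Agent.H528.Mo.M_nonneg ha l P

lemma weight_eq {N : ℕ} {ξ : ℝ} (hN : 1 ≤ N) (l : List ℕ) (m : ℕ) : weight N ξ l m = wM N (zN ξ N) l m := by
  unfold weight wM ro
  rw [ro_iff' hN]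
  by_cases h1 : Squarefree m
  · by_cases h2 : Ro (zN ξ N) m
    · rw [if_pos ⟨h1, h2⟩, if_pos h2, if_pos h1, one_mul, moment_eq]
      rfl
    · rw [if_neg (fun h => h2 h.2), if_neg h2, zero_mul]
  · rw [if_neg (fun h => h1 h.1), if_neg h1, mul_zero]

lemma weight_nonneg {N : ℕ} {ξ : ℝ} (l : List ℕ) (m : ℕ) : 0 ≤ weight N ξ l m := by
  unfold weight
  split_ifs
  · apply moment_nonneg
    intro p
    exact div_nonneg (Real.log_natCast_nonneg p) (Real.log_natCast_nonneg N)
  · exact le_rfl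

lemma coeff_eq (k : ℕ) (l : List ℕ) : coeff (k :: l) = ac k l := by
  unfold coeff ac nn Pool.Agent.H528.Mo.fct
  rw [List.length_cons, Nat.add_sub_cancel]

lemma PF_eq (N m n : ℕ) : Pool.Agent.H528.Ap.PF N m n = primesAP N m n := by
  unfold Pool.Agent.H528.Ap.PF primesAP
  congr!

lemma mass_eq {N : ℕ} {ξ : ℝ} (hN : 1 ≤ N) (l : List ℕ) (m n : ℕ) :
    Pool.Agent.H528.Ap.TF N (zN ξ N) m n l = mass N ξ l m n := by
  unfold Pool.Agent.H528.Ap.TF mass
  rw [PF_eq]
  exact sum_congr rfl fun p _ => (weight_eq hN l _).symm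

lemma pairs_eq (N m n : ℕ) : Pool.Agent.H528.Ap.piF N m n = pairs N m n := by
  unfold Pool.Agent.H528.Ap.piF pairs
  rw [PF_eq, card_eq_sum_ones, Nat.cast_sum, sum_filter]
  refine sum_congr rfl fun p _ => ?_
  split_ifs <;> simp

lemma mass_nonneg {N : ℕ} {ξ : ℝ} (l : List ℕ) (m n : ℕ) : 0 ≤ mass N ξ l m n :=
  sum_nonneg fun _ _ => weight_nonneg l _

lemma expectedPairs_eq (N m n : ℕ) : expectedPairs N m n = Pool.Agent.H528.Ap.EB N m n 1 := by
  unfold expectedPairs Pool.Agent.H528.Ap.EB Pool.Agent.H528.Ap.phiT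
  simp

/-- the list as a pair -/
def toPair (l : List ℕ) : ℕ × List ℕ := (l.headI, l.tail)

lemma toPair_eq {l : List ℕ} (hl : l ≠ []) : (toPair l).1 :: (toPair l).2 = l := by
  cases l with
  | nil => exact absurd rfl hl
  | cons k l => rfl

lemma toPair_par {l : List ℕ} (hl : l ≠ []) : Even (toPair l).2.length ↔ Odd l.length := by
  cases l with
  | nil => exact absurd rfl hl
  | cons k l =>
    show Even l.length ↔ Odd (k :: l).length
    rw [List.length_cons, Nat.odd_add_one, Nat.not_odd_iff_even]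

/-- the indicator function of `A` -/
noncomputable def ind (A : Finset ℕ) (n : ℕ) : ℝ := if n ∈ A then 1 else 0

lemma ind_bd (A : Finset ℕ) (n : ℕ) : 0 ≤ ind A n ∧ ind A n ≤ 1 := by
  unfold ind; split_ifs <;> norm_num

lemma ind_sum {N : ℕ} {A : Finset ℕ} (hA : ∀ a ∈ A, 1 ≤ a ∧ a ≤ N) (F : ℕ → ℝ) :
    ∑ n ∈ Icc 1 N, ind A n * F n = ∑ n ∈ A, F n := by
  unfold ind
  simp only [ite_mul, one_mul, zero_mul]
  rw [← sum_filter]
  congr 1
  ext n
  rw [mem_filter, mem_Icc]
  exact ⟨fun h => h.2, fun h => ⟨hA n h, h⟩⟩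

lemma floorSet_mem (N m : ℕ) (V : Set ℕ) : ∀ a ∈ floorSet N m V, 1 ≤ a ∧ a ≤ N := by
  classical
  intro a ha
  have h1 : a ∈ Icc 1 N := (mem_filter.1 ha).1
  rw [mem_Icc] at h1
  exact h1

/-- the function to which the law for translates is applied -/
noncomputable def ff (N m : ℕ) (V : Set ℕ) (x : ℕ) : ℝ := ind (floorSet N m V) (N + 1 - x)

lemma ff_sum {N m n : ℕ} (V : Set ℕ) (hn : N + 1 ≤ n) (F : ℕ → ℝ) :
    ∑ x ∈ Icc 1 N, ff N m V x * F (x + (n - (N + 1))) = ∑ a ∈ floorSet N m V, F (n - a) := by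
  have h1 := Pool.Agent.H528.Ap.refl_sum hn (ind (floorSet N m V)) F
  unfold ff
  rw [h1]
  exact ind_sum (floorSet_mem N m V) (fun x => F (n - x))

lemma eulerProd_eq (y : ℕ) : eulerProd y = Vz y := by
  unfold eulerProd Vz
  rfl

lemma floorMass_eq {N m n : ℕ} {ξ : ℝ} (hN : 1 ≤ N) (l : List ℕ) (V : Set ℕ) (hn : N + 1 ≤ n) :
    ∑ x ∈ Icc 1 N, ff N m V x * wM N (zN ξ N) l (x + (n - (N + 1))) = floorMass N ξ l m V n := by
  rw [ff_sum V hn]
  unfold floorMass
  exact sum_congr rfl fun a _ => (weight_eq hN l _).symm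

lemma floorMass_nonneg {N : ℕ} {ξ : ℝ} (l : List ℕ) (m : ℕ) (V : Set ℕ) (n : ℕ) : 0 ≤ floorMass N ξ l m V n :=
  sum_nonneg fun _ _ => weight_nonneg l _

lemma floorPrimes_eq {N m n : ℕ} (V : Set ℕ) (hn : N + 1 ≤ n) :
    pif N (ff N m V) (n - (N + 1)) = floorPrimes N m V n := by
  classical
  have h1 := ff_sum (m := m) V hn (fun v => if v.Prime then 1 else 0)
  unfold pif
  refine Eq.trans h1 ?_
  unfold floorPrimes
  rw [card_eq_sum_ones, Nat.cast_sum, sum_filter]
  refine sum_congr rfl fun n _ => ?_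
  split_ifs <;> simp

lemma floorExpected_eq {κ : ℝ} {N m n : ℕ} (V : Set ℕ) (hn : N + 1 ≤ n) :
    (∑ x ∈ Icc 1 N, ff N m V x * ro (yN κ N) (x + (n - (N + 1)))) / (Real.log N * Vz (yN κ N)) =
      floorExpected κ N m V n := by
  classical
  rw [ff_sum V hn]
  unfold floorExpected
  rw [eulerProd_eq]
  have h1 : (((floorSet N m V).filter (fun a => ∀ q : ℕ, q.Prime →
      q ≤ ⌊Real.exp (κ * Real.log N / Real.log (Real.log N))⌋₊ → ¬ q ∣ n - a)).card : ℝ) =
        ∑ a ∈ floorSet N m V, ro (yN κ N) (n - a) := by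
    rw [card_eq_sum_ones, Nat.cast_sum, sum_filter]
    refine sum_congr rfl fun a _ => ?_
    have e1 : (∀ q : ℕ, q.Prime → q ≤ ⌊Real.exp (κ * Real.log N / Real.log (Real.log N))⌋₊ → ¬ q ∣ n - a) ↔
        Ro (yN κ N) (n - a) := Iff.rfl
    unfold ro
    by_cases h : Ro (yN κ N) (n - a)
    · rw [if_pos (e1.2 h), if_pos h, Nat.cast_one]
    · rw [if_neg (fun h2 => h (e1.1 h2)), if_neg h]
  rw [h1]
  rfl

open Classical in
theorem result :
    -- the conjectured constants are convergent products, positive for even `d`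
    (∀ d : ℕ, HasProd (fun p : Nat.Primes => locT {0, d} p) (CT {0, d}) ∧ (Even d → 1 ≤ d → 0 < CT {0, d})) ∧
    -- (A) the law for the primes `p` with `⌊(n - p) / m⌋` in arbitrary sets `V m`
    (∀ 𝓛 : Finset (List ℕ), (∀ l ∈ 𝓛, l ≠ []) → ∀ ε : ℝ, 0 < ε → ∀ U : ℕ, ∃ δ ξ κ η : ℝ, 0 < δ ∧ δ < 1 ∧ 0 < ξ ∧
      ξ ≤ ε ∧ 0 < κ ∧ 0 < η ∧ ∃ N₀ : ℕ, ∀ N : ℕ, N₀ ≤ N → ∀ V : ℕ → Set ℕ,
        (((Icc (N + 1) (2 * N)).filter (fun n => ∃ m : ℕ, 1 ≤ m ∧ (m : ℝ) ≤ (N : ℝ) ^ η ∧
          ¬ ((∀ l ∈ 𝓛, |floorMass N ξ l m (V m) n - coeff l * (if Odd l.length then floorPrimes N m (V m) n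
              else 2 * floorExpected κ N m (V m) n - floorPrimes N m (V m) n)| ≤
                ε * floorExpected κ N m (V m) n + N / Real.log N ^ U) ∧
            floorPrimes N m (V m) n ≤ (2 + ε) * floorExpected κ N m (V m) n + N / Real.log N ^ U))).card : ℝ) ≤
        (N : ℝ) ^ δ) ∧
    -- (B) the law for the quotients `q = (n - p) / m`
    ∀ 𝓛 : Finset (List ℕ), (∀ l ∈ 𝓛, l ≠ []) → ∀ ε : ℝ, 0 < ε → ∀ B : ℕ, ∃ δ ξ : ℝ, 0 < δ ∧ δ < 1 ∧ 0 < ξ ∧ ξ ≤ ε ∧
      ∃ N₀ : ℕ, ∀ N : ℕ, N₀ ≤ N → ∃ 𝓔 : Finset ℕ, (𝓔.card : ℝ) ≤ (N : ℝ) ^ δ ∧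
        ∀ n : ℕ, N < n → n ≤ 2 * N → n ∉ 𝓔 →
        ∀ m : ℕ, 2 ≤ m → (m : ℝ) ≤ Real.log N ^ B → Nat.Coprime n m → Even (m * n) →
          (∀ l ∈ 𝓛, |mass N ξ l m n - coeff l * (if Odd l.length then pairs N m n
              else 2 * expectedPairs N m n - pairs N m n)| ≤ ε * expectedPairs N m n) ∧
          pairs N m n ≤ (2 + ε) * expectedPairs N m n := by
  have habs : ∀ (δ : ℝ) (B : ℕ), δ < 1 → ∃ N₁ : ℕ, ∀ N : ℕ, N₁ ≤ N →
      (N : ℝ) ^ δ * Real.log N ^ B ≤ (N : ℝ) ^ ((1 + δ) / 2) := by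
    intro δ B hδ
    have e2 := ev_logN (ev_pow_exp B ((1 - δ) / 2) 1 (by linarith))
    obtain ⟨N₀, hN₀⟩ := eventually_atTop.1 e2
    refine ⟨max N₀ 1, fun N hN => ?_⟩
    have h2 := hN₀ N ((le_max_left _ _).trans hN)
    have hN1 : 1 ≤ N := (le_max_right _ _).trans hN
    have hN0 : (0 : ℝ) < N := by exact_mod_cast hN1
    rw [one_mul] at h2
    have e3 : (N : ℝ) ^ ((1 + δ) / 2) = (N : ℝ) ^ δ * Real.exp ((1 - δ) / 2 * Real.log N) := by
      rw [mul_comm ((1 - δ) / 2), ← Real.rpow_def_of_pos hN0, ← Real.rpow_add hN0]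
      congr 1
      ring
    rw [e3]
    exact mul_le_mul_of_nonneg_left h2 (by positivity)
  refine ⟨fun d => ⟨CT_hasProd _, fun hd _ => ?_⟩, fun 𝓛 h𝓛 ε hε U => ?_, fun 𝓛 h𝓛 ε hε B => ?_⟩
  · rw [← CT_en]
    apply Pool.Agent.H386R2.HL.singularSeries_pos (en_inj _)
    intro p hp
    rw [nu_en]
    exact Pool.Agent.H528.Ap.adm_pair hd p hp
  · obtain ⟨δ, hδ1, hδ2, ξ, hξ, hξ8, hξε, κ, hκ, hκ1, C, LAW⟩ := law2 ((insert [0, 0] 𝓛).image toPair) ε hε U
    obtain ⟨N₁, hN₁⟩ := habs ((1 + δ) / 2) C (by linarith)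
    obtain ⟨N₀, hN₀⟩ := eventually_atTop.1 LAW
    refine ⟨(1 + (1 + δ) / 2) / 2, ξ, κ, (1 - δ) / 2, by linarith, by linarith, hξ, hξε, hκ, by linarith,
      max (max N₀ N₁) 1, fun N hN V => ?_⟩
    have h1 := hN₀ N ((le_max_left _ _).trans ((le_max_left _ _).trans hN))
    have h2 := hN₁ N ((le_max_right _ _).trans ((le_max_left _ _).trans hN))
    have hN1 : 1 ≤ N := (le_max_right _ _).trans hN
    have hN0 : (0 : ℝ) < N := by exact_mod_cast hN1
    obtain ⟨M, hM⟩ : ∃ M : ℕ, M = ⌊(N : ℝ) ^ ((1 - δ) / 2)⌋₊ := ⟨_, rfl⟩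
    have hM1 : (M : ℝ) ≤ (N : ℝ) ^ ((1 - δ) / 2) := by rw [hM]; exact Nat.floor_le (by positivity)
    obtain ⟨bad, hbad⟩ : ∃ bad : ℕ → ℕ → Prop, bad = fun m n => ¬ ∀ l ∈ insert [0, 0] 𝓛,
      |floorMass N ξ l m (V m) n - coeff l * (if Odd l.length then floorPrimes N m (V m) n
              else 2 * floorExpected κ N m (V m) n - floorPrimes N m (V m) n)| ≤
                ε * floorExpected κ N m (V m) n + N / Real.log N ^ U := ⟨_, rfl⟩
    have hsub : (Icc (N + 1) (2 * N)).filter (fun n => ∃ m : ℕ, 1 ≤ m ∧ (m : ℝ) ≤ (N : ℝ) ^ ((1 - δ) / 2) ∧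
          ¬ ((∀ l ∈ 𝓛, |floorMass N ξ l m (V m) n - coeff l * (if Odd l.length then floorPrimes N m (V m) n
              else 2 * floorExpected κ N m (V m) n - floorPrimes N m (V m) n)| ≤
                ε * floorExpected κ N m (V m) n + N / Real.log N ^ U) ∧
            floorPrimes N m (V m) n ≤ (2 + ε) * floorExpected κ N m (V m) n + N / Real.log N ^ U)) ⊆
        (Icc 1 M).biUnion (fun m => (Icc (N + 1) (2 * N)).filter (bad m)) := by
      intro n hn
      rw [mem_filter] at hn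
      obtain ⟨hn1, m, hm1, hm2, hm3⟩ := hn
      rw [mem_biUnion]
      refine ⟨m, ?_, ?_⟩
      · rw [mem_Icc]
        exact ⟨hm1, by rw [hM]; exact Nat.le_floor hm2⟩
      · rw [mem_filter]
        refine ⟨hn1, ?_⟩
        rw [hbad]
        intro hgood
        apply hm3
        refine ⟨fun l hl => hgood l (mem_insert_of_mem hl), ?_⟩
        have h3 := hgood [0, 0] (mem_insert_self _ _)
        have h4 : coeff [0, 0] = 1 := by
          unfold coeff
          simp
        rw [h4, one_mul, if_neg (by decide)] at h3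
        have h5 := (abs_le.1 h3).2
        have h6 := floorMass_nonneg (N := N) (ξ := ξ) [0, 0] m (V m) n
        linarith
    have hone : ∀ m : ℕ, (((Icc (N + 1) (2 * N)).filter (bad m)).card : ℝ) ≤ (N : ℝ) ^ δ * Real.log N ^ C := by
      intro m
      have hcard : (((Icc (N + 1) (2 * N)).filter (bad m)).image (fun n => n - (N + 1))).card =
          ((Icc (N + 1) (2 * N)).filter (bad m)).card := by
        apply card_image_of_injOn
        intro n hn n' hn' h
        rw [mem_coe, mem_filter, mem_Icc] at hn hn'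
        have h3 : n - (N + 1) = n' - (N + 1) := h
        omega
      rw [← hcard]
      refine h1 (ff N m (V m)) (fun x => ind_bd _ _) _ fun t ht => ?_
      rw [mem_image] at ht
      obtain ⟨n, hn, rfl⟩ := ht
      rw [mem_filter, mem_Icc] at hn
      refine ⟨by omega, fun hgood => ?_⟩
      have hn2 := hn.2
      rw [hbad] at hn2
      apply hn2
      intro l hl
      have hl0 : l ≠ [] := by
        rw [mem_insert] at hl
        rcases hl with rfl | hl
        · simp
        · exact h𝓛 l hl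
      have h3 := hgood (toPair l) (mem_image_of_mem _ hl)
      rw [toPair_eq hl0, floorMass_eq hN1 l _ hn.1.1, floorPrimes_eq _ hn.1.1, floorExpected_eq _ hn.1.1, ← coeff_eq,
        toPair_eq hl0] at h3
      have h4 := toPair_par hl0
      by_cases h5 : Odd l.length
      · rw [if_pos (h4.2 h5)] at h3
        rw [if_pos h5]
        exact h3
      · rw [if_neg (fun h => h5 (h4.1 h))] at h3
        rw [if_neg h5]
        exact h3
    have h3 : ((((Icc 1 M).biUnion (fun m => (Icc (N + 1) (2 * N)).filter (bad m))).card : ℕ) : ℝ) ≤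
        ∑ m ∈ Icc 1 M, (((Icc (N + 1) (2 * N)).filter (bad m)).card : ℝ) := by
      exact_mod_cast card_biUnion_le
    have h4 : ((((Icc (N + 1) (2 * N)).filter (fun n => ∃ m : ℕ, 1 ≤ m ∧ (m : ℝ) ≤ (N : ℝ) ^ ((1 - δ) / 2) ∧
          ¬ ((∀ l ∈ 𝓛, |floorMass N ξ l m (V m) n - coeff l * (if Odd l.length then floorPrimes N m (V m) n
              else 2 * floorExpected κ N m (V m) n - floorPrimes N m (V m) n)| ≤
                ε * floorExpected κ N m (V m) n + N / Real.log N ^ U) ∧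
            floorPrimes N m (V m) n ≤ (2 + ε) * floorExpected κ N m (V m) n + N / Real.log N ^ U))).card : ℕ) : ℝ) ≤
        ((((Icc 1 M).biUnion (fun m => (Icc (N + 1) (2 * N)).filter (bad m))).card : ℕ) : ℝ) := by
      exact_mod_cast card_le_card hsub
    refine h4.trans (h3.trans ((sum_le_sum fun m _ => hone m).trans ?_))
    rw [sum_const, Nat.card_Icc, Nat.add_sub_cancel, nsmul_eq_mul]
    have e1 : (N : ℝ) ^ ((1 - δ) / 2) * (N : ℝ) ^ δ = (N : ℝ) ^ ((1 + δ) / 2) := by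
      rw [← Real.rpow_add hN0]
      congr 1
      ring
    calc (M : ℝ) * ((N : ℝ) ^ δ * Real.log N ^ C) ≤ (N : ℝ) ^ ((1 - δ) / 2) * ((N : ℝ) ^ δ * Real.log N ^ C) :=
          mul_le_mul_of_nonneg_right hM1 (mul_nonneg (by positivity) (pow_nonneg (Real.log_natCast_nonneg N) C))
      _ = (N : ℝ) ^ ((1 + δ) / 2) * Real.log N ^ C := by rw [← mul_assoc, e1]
      _ ≤ (N : ℝ) ^ ((1 + (1 + δ) / 2) / 2) := h2
  · obtain ⟨δ, hδ1, hδ2, ξ, hξ, hξ8, hξε, C, LAW⟩ := Pool.Agent.H528.Ap.fl_law ((insert [0, 0] 𝓛).image toPair) ε hε B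
    obtain ⟨N₁, hN₁⟩ := habs δ C hδ2
    obtain ⟨N₀, hN₀⟩ := eventually_atTop.1 LAW
    refine ⟨(1 + δ) / 2, ξ, by linarith, by linarith, hξ, hξε, max (max N₀ N₁) 1, fun N hN => ?_⟩
    have h1 := hN₀ N ((le_max_left _ _).trans ((le_max_left _ _).trans hN))
    have h2 := hN₁ N ((le_max_right _ _).trans ((le_max_left _ _).trans hN))
    have hN1 : 1 ≤ N := (le_max_right _ _).trans hN
    refine ⟨(Icc (N + 1) (2 * N)).filter (fun n => ∃ m : ℕ, (2 ≤ m ∧ (m : ℝ) ≤ Real.log N ^ B) ∧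
      Nat.Coprime n m ∧ Even (m * n) ∧
      ¬ ∀ l ∈ (insert [0, 0] 𝓛).image toPair, |Pool.Agent.H528.Ap.TF N (zN ξ N) m n (l.1 :: l.2) -
          ac l.1 l.2 * (if Even l.2.length then Pool.Agent.H528.Ap.piF N m n else
            2 * Pool.Agent.H528.Ap.EB N m n 1 - Pool.Agent.H528.Ap.piF N m n)| ≤
        ε * Pool.Agent.H528.Ap.EB N m n 1), (h1 _ fun t ht => ?_).trans h2, ?_⟩
    · rw [mem_filter, mem_Icc] at ht
      exact ht
    · intro n hv1 hv2 hvE m hm hmB hcop hev
      have hall : ∀ l ∈ insert [0, 0] 𝓛, |mass N ξ l m n - coeff l *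
          (if Odd l.length then pairs N m n else 2 * expectedPairs N m n - pairs N m n)| ≤ ε * expectedPairs N m n := by
        intro l hl
        have hl0 : l ≠ [] := by
          rw [mem_insert] at hl
          rcases hl with rfl | hl
          · simp
          · exact h𝓛 l hl
        by_contra hcon
        apply hvE
        rw [mem_filter, mem_Icc]
        refine ⟨⟨by omega, hv2⟩, m, ⟨hm, hmB⟩, hcop, hev, fun hgood => hcon ?_⟩
        have h3 := hgood (toPair l) (mem_image_of_mem _ hl)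
        rw [toPair_eq hl0, mass_eq hN1 l, pairs_eq, ← coeff_eq, toPair_eq hl0, ← expectedPairs_eq] at h3
        have h4 := toPair_par hl0
        by_cases h5 : Odd l.length
        · rw [if_pos (h4.2 h5)] at h3
          rw [if_pos h5]
          exact h3
        · rw [if_neg (fun h => h5 (h4.1 h))] at h3
          rw [if_neg h5]
          exact h3
      refine ⟨fun l hl => hall l (mem_insert_of_mem hl), ?_⟩
      have h3 := hall [0, 0] (mem_insert_self _ _)
      have h4 : coeff [0, 0] = 1 := by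
        unfold coeff
        simp
      rw [h4, one_mul, if_neg (by decide)] at h3
      have h5 := (abs_le.1 h3).2
      have h6 := mass_nonneg (N := N) (ξ := ξ) [0, 0] m n
      linarith

end Pool.Agent.Results.MP_4011c3_nt.ParityLawForFloors
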